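import Pool.Agent.Helper72.LSr.N1
import Pool.Agent.Helper72.LSr.C1

/-!
# Project LSR (MP_5f3c9b_co), piece LR-I4: the level 3 identity
-/

namespace Pool.Agent.Helper54.LSr

open Finset
open scoped Classical
open Pool.Agent.Helper72.LSr

variable {V : Type} (G : SimpleGraph V) (S : Finset V)

theorem mem_NH {w x : V} : x ∈ NH G S w ↔ x ∈ S ∧ ¬ G.Adj w x ∧ x ≠ w := by
  unfold NH; rw [mem_filter]

theorem mem_Qf {R : Finset V} {f : V → ℕ} {u x : V} :
    x ∈ Qf G R f u ↔ x ∈ R ∧ G.Adj u x ∧ f x < f u := by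
  unfold Qf; rw [mem_filter]

theorem cv_comm (k A B : ℕ) (u v : V) : cv k A B G S u v = cv k A B G S v u := by
  unfold cv
  rw [inter_comm]

/-- `s_u(Q)` for `Q ⊆ N_u` -/
theorem sq_eq (k A B : ℕ) (u : V) (Q : Finset V) (hQ : Q ⊆ nb G S u) :
    sq k A B G S u Q = EE k A B * Q.card + K G (nb G S u \ Q) 2 - K G (nb G S u) 2 := by
  have h1 := K_two_sdiff G (nb G S u) Q hQ
  have h2 : ∑ x ∈ Q, cv k A B G S u x
      = EE k A B * Q.card - ∑ x ∈ Q, ((nb G (nb G S u) x).card : ℤ) := by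
    unfold cv
    rw [sum_sub_distrib, sum_const, nsmul_eq_mul, mul_comm]
    congr 1
    refine sum_congr rfl (fun x _ => ?_)
    rw [nb_nb]
  unfold Pool.Agent.Helper72.LSr.sq
  rw [h2]
  linarith

variable {w : V} (hw : w ∈ S)

include hw

theorem card_NH' (k A B : ℕ) :
    ((NH G S w).card : ℤ) = k - 1 + Dv k A B G S w - MS k A B S := by
  have h1 : NH G S w = (S.erase w) \ nb G S w := by
    ext x
    rw [mem_NH, mem_sdiff, mem_erase, mem_nb]
    tauto
  have h2 : nb G S w ⊆ S.erase w := by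
    intro x hx
    rw [mem_erase]
    refine ⟨?_, nb_subset G S w hx⟩
    rintro rfl
    exact not_mem_nb_self G S x hx
  have h3 : (NH G S w).card + (nb G S w).card = S.card - 1 := by
    rw [h1, card_sdiff_add_card_eq_card h2, card_erase_of_mem hw]
  have h4 : 1 ≤ S.card := card_pos.2 ⟨w, hw⟩
  have h5 : ((NH G S w).card : ℤ) + (nb G S w).card = S.card - 1 := by
    have : (((NH G S w).card + (nb G S w).card : ℕ) : ℤ) = ((S.card - 1 : ℕ) : ℤ) := by
      rw [h3]
    rw [Nat.cast_sub h4] at this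
    push_cast at this
    exact this
  unfold Dv MS Mm nu
  linarith

/-- local form -/
theorem id_Y (k A B : ℕ) {u : V} (hu : u ∈ NH G S w) :
    Yv k A B G S u = Yv k A B G S w - sq k A B G S w (Qs G S w u)
      + sq k A B G S u (nb G (NH G S w) u) := by
  rw [mem_NH] at hu
  obtain ⟨huS, hwu, hne⟩ := hu
  have hQ : Qs G S w u = nb G S w \ nb G S u := by
    ext x
    unfold Qs
    rw [mem_filter, mem_sdiff, mem_nb, mem_nb]
    tauto
  have hQ' : nb G (NH G S w) u = nb G S u \ nb G S w := by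
    ext x
    rw [mem_nb, mem_sdiff, mem_nb, mem_nb, mem_NH]
    constructor
    · rintro ⟨⟨h1, h2, h3⟩, h4⟩
      exact ⟨⟨h1, h4⟩, fun h => h2 h.2⟩
    · rintro ⟨⟨h1, h2⟩, h3⟩
      refine ⟨⟨h1, fun h => h3 ⟨h1, h⟩, ?_⟩, h2⟩
      rintro rfl
      exact hwu h2.symm
  rw [hQ, hQ', sq_eq G S k A B w _ sdiff_subset, sq_eq G S k A B u _ sdiff_subset,
    sdiff_sdiff_right_self, sdiff_sdiff_right_self]
  have hI : nb G S w ⊓ nb G S u = nb G S u ⊓ nb G S w := inf_comm _ _
  rw [hI]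
  have c1 : ((nb G S w \ nb G S u).card : ℤ) = (nb G S w).card - (nb G S w ∩ nb G S u).card := by
    have := card_sdiff_add_card_inter (nb G S w) (nb G S u)
    rw [← this]
    push_cast
    ring
  have c2 : ((nb G S u \ nb G S w).card : ℤ) = (nb G S u).card - (nb G S w ∩ nb G S u).card := by
    have := card_sdiff_add_card_inter (nb G S u) (nb G S w)
    rw [← this, inter_comm (nb G S w) (nb G S u)]
    push_cast
    ring
  rw [c1, c2]
  unfold Yv
  ring

omit hw in
theorem sum_symm_aux (R : Finset V) (f : V → ℕ) (hf : Set.InjOn f R) (c : V → V → ℤ)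
    (hc : ∀ x y, c x y = c y x) :
    ∑ u ∈ R, ∑ x ∈ nb G R u, c u x = 2 * ∑ u ∈ R, ∑ x ∈ Qf G R f u, c u x := by
  have h1 : ∀ u ∈ R, ∑ x ∈ nb G R u, c u x
      = ∑ x ∈ Qf G R f u, c u x + ∑ x ∈ R, if G.Adj u x ∧ f u < f x then c u x else 0 := by
    intro u hu
    have e1 : ∑ x ∈ nb G R u, c u x = ∑ x ∈ R, if G.Adj u x then c u x else 0 := by
      unfold nb; rw [sum_filter]
    have e2 : ∑ x ∈ Qf G R f u, c u x
        = ∑ x ∈ R, if G.Adj u x ∧ f x < f u then c u x else 0 := by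
      unfold Qf; rw [sum_filter]
    rw [e1, e2, ← sum_add_distrib]
    refine sum_congr rfl (fun x hx => ?_)
    by_cases ha : G.Adj u x
    · have hne : f u ≠ f x := fun h => ha.ne (hf hu hx h)
      rcases lt_or_gt_of_ne hne with h | h
      · simp [ha, h, not_lt.2 h.le]
      · simp [ha, h, not_lt.2 h.le]
    · simp [ha]
  rw [sum_congr rfl h1, sum_add_distrib, two_mul]
  congr 1
  rw [sum_comm]
  refine sum_congr rfl (fun x _ => ?_)
  unfold Qf
  rw [sum_filter]
  refine sum_congr rfl (fun u _ => ?_)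
  rw [hc u x]
  simp only [G.adj_comm u x]

omit hw in
theorem sum_sq (k A B : ℕ) (f : V → ℕ) (hf : Set.InjOn f (NH G S w)) :
    ∑ u ∈ NH G S w, sq k A B G S u (nb G (NH G S w) u)
      = 2 * ∑ u ∈ NH G S w, sq k A B G S u (Qf G (NH G S w) f u) + K G (NH G S w) 3 := by
  unfold Pool.Agent.Helper72.LSr.sq
  rw [sum_add_distrib, sum_add_distrib,
    sum_symm_aux G (NH G S w) f hf (fun u x => cv k A B G S u x) (fun x y => cv_comm G S k A B x y)]
  have h1 := succ_K G (NH G S w) 2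
  have h2 := K_last G (NH G S w) f hf 2
  norm_num at h1 h2
  rw [← h1, ← h2]
  ring

theorem id_G3 (k A B : ℕ) (f : V → ℕ) (hf : Set.InjOn f (NH G S w)) :
    ∑ y ∈ NH G S w, sq k A B G S w (Qs G S w y)
      = (Dv k A B G S w - MS k A B S) * Yv k A B G S w
        + 2 * ∑ u ∈ NH G S w, sq k A B G S u (Qf G (NH G S w) f u) + K G (NH G S w) 3
        - (∑ u ∈ NH G S w, Yv k A B G S u + Yv k A B G S w - k * Yv k A B G S w) := by
  have h1 : ∀ y ∈ NH G S w, sq k A B G S w (Qs G S w y)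
      = Yv k A B G S w - Yv k A B G S y + sq k A B G S y (nb G (NH G S w) y) := by
    intro y hy
    have := id_Y G S hw k A B hy
    linarith
  rw [sum_congr rfl h1, sum_add_distrib, sum_sub_distrib, sum_const, nsmul_eq_mul,
    sum_sq G S k A B f hf, card_NH' G S hw k A B]
  ring

end Pool.Agent.Helper54.LSr
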